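import Mathlib
import Pool.Agent.Helper95.FL.Stmts2

set_option autoImplicit false

namespace Pool.Agent.Helper67.FLC4

open Pool.Agent.Helper95.FL
open scoped Classical

variable {G : Type} [Group G] {H : Fin 3 → Subgroup G}

/-- The element `g` lies in the coset `v`. -/
def In (v : Σ t : Fin 3, G ⧸ H t) (g : G) : Prop :=
  (⟨v.1, (g : G ⧸ H v.1)⟩ : Σ t : Fin 3, G ⧸ H t) = v

lemma in_iff (t : Fin 3) (q : G ⧸ H t) (g : G) :
    In (H := H) ⟨t, q⟩ g ↔ (g : G ⧸ H t) = q := by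
  unfold In
  constructor
  · intro h
    simpa using h
  · intro h
    simp only [h]

lemma in_diff {v : Σ t : Fin 3, G ⧸ H t} {g g' : G} (h : In v g) (h' : In v g') :
    g⁻¹ * g' ∈ H v.1 := by
  obtain ⟨t, q⟩ := v
  rw [in_iff] at h h'
  rw [← h'] at h
  exact QuotientGroup.eq.1 h

lemma in_mul {v : Σ t : Fin 3, G ⧸ H t} {g g' : G} (h : In v g) (h' : g⁻¹ * g' ∈ H v.1) :
    In v g' := by
  obtain ⟨t, q⟩ := v
  rw [in_iff] at h ⊢
  rw [← h]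
  exact (QuotientGroup.eq.2 h').symm

lemma in_eq {v w : Σ t : Fin 3, G ⧸ H t} {g : G} (h : In v g) (h' : In w g) (hvw : v.1 = w.1) :
    v = w := by
  obtain ⟨t, q⟩ := v
  obtain ⟨t', q'⟩ := w
  simp only at hvw
  subst hvw
  rw [in_iff] at h h'
  rw [← h, ← h']

lemma adj_iff {v w : Σ t : Fin 3, G ⧸ H t} :
    (grpCx H).Adj v w ↔ v.1 ≠ w.1 ∧ ∃ g, In v g ∧ In w g := Iff.rfl

lemma adj_symm {v w : Σ t : Fin 3, G ⧸ H t} (h : (grpCx H).Adj v w) : (grpCx H).Adj w v := by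
  rw [adj_iff] at h ⊢
  obtain ⟨h1, g, h2, h3⟩ := h
  exact ⟨h1.symm, g, h3, h2⟩

/-- The case of equal types of `v₂` and `v₄`. -/
lemma core {U : Fin 3 → Subgroup G} {m : ℕ} (hG : Geo U H m)
    (v₁ v₂ v₃ v₄ : Σ t : Fin 3, G ⧸ H t) (h13 : v₁ ≠ v₃) (h24 : v₂ ≠ v₄)
    (a12 : (grpCx H).Adj v₁ v₂) (a23 : (grpCx H).Adj v₂ v₃) (a34 : (grpCx H).Adj v₃ v₄)
    (a41 : (grpCx H).Adj v₄ v₁) (ht : v₂.1 = v₄.1) : (grpCx H).Adj v₁ v₃ := by
  rw [adj_iff] at a12 a23 a34 a41 ⊢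
  obtain ⟨t12, g12, p1, p2⟩ := a12
  obtain ⟨t23, g23, q2, q3⟩ := a23
  obtain ⟨t34, g34, r3, r4⟩ := a34
  obtain ⟨t41, g41, s4, s1⟩ := a41
  have hx : g12⁻¹ * g23 ∈ H v₂.1 := in_diff p2 q2
  have hy : g23⁻¹ * g34 ∈ H v₃.1 := in_diff q3 r3
  have hx' : g12⁻¹ * g41 ∈ H v₁.1 := in_diff p1 s1
  have hy' : g41⁻¹ * g34 ∈ H v₄.1 := in_diff s4 r4
  have hprod : (g12⁻¹ * g23) * (g23⁻¹ * g34) = (g12⁻¹ * g41) * (g41⁻¹ * g34) := by group
  by_cases h : v₁.1 = v₃.1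
  · exfalso
    obtain ⟨a, ha1, ha2⟩ : ∃ a : Fin 3, a ≠ v₁.1 ∧ a ≠ v₂.1 := by
      generalize v₁.1 = i
      generalize v₂.1 = j
      fin_cases i <;> fin_cases j <;> decide
    rw [← h] at hy
    rw [← ht] at hy'
    rcases hG.l4I a v₁.1 v₂.1 ha1 ha2 t12 _ hx _ hy _ hx' _ hy' hprod with hh | hh
    · have h1 : g12⁻¹ * g41 ∈ H v₁.1 ⊓ H v₂.1 := by
        rw [hG.inter v₁.1 v₂.1 a t12 ha1.symm ha2.symm]
        exact hh
      have h2 : In v₂ g41 := in_mul p2 h1.2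
      exact h24 (in_eq h2 s4 ht)
    · have h1 : g41⁻¹ * g34 ∈ H v₁.1 ⊓ H v₂.1 := by
        rw [hG.inter v₁.1 v₂.1 a t12 ha1.symm ha2.symm]
        exact hh
      have h2 : In v₁ g34 := in_mul s1 h1.1
      exact h13 (in_eq h2 r3 h)
  · rw [← ht] at hy'
    refine ⟨h, ?_⟩
    rcases hG.l4II v₁.1 v₂.1 v₃.1 t12 h t23 _ hx _ hy _ hx' _ hy' hprod with hh | ⟨u, hu, v, hv, huv⟩
    · exfalso
      have h1 : g12⁻¹ * g41 ∈ H v₁.1 ⊓ H v₂.1 := by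
        rw [hG.inter v₁.1 v₂.1 v₃.1 t12 h t23]
        exact hh
      have h2 : In v₂ g41 := in_mul p2 h1.2
      exact h24 (in_eq h2 s4 ht)
    · have hu' : u ∈ H v₁.1 ⊓ H v₂.1 := by
        rw [hG.inter v₁.1 v₂.1 v₃.1 t12 h t23]
        exact hu
      have hv' : v ∈ H v₂.1 ⊓ H v₃.1 := by
        rw [hG.inter v₂.1 v₃.1 v₁.1 t23 t12.symm (Ne.symm h)]
        exact hv
      refine ⟨g41 * u, in_mul s1 (by simpa using hu'.1), in_mul r3 ?_⟩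
      have e : g34⁻¹ * (g41 * u) = v⁻¹ := by
        have : g34 = g41 * (u * v) := by rw [← huv]; group
        rw [this]; group
      rw [e]
      exact inv_mem hv'.2

theorem stChord4 : StChord4 := by
  intro G _ U H m hG v₁ v₂ v₃ v₄ h4
  obtain ⟨h13, h24, a12, a23, a34, a41⟩ := h4
  by_cases ht : v₂.1 = v₄.1
  · exact Or.inl (core hG v₁ v₂ v₃ v₄ h13 h24 a12 a23 a34 a41 ht)
  · right
    have ht' : v₃.1 = v₁.1 := by
      have e1 := a12.1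
      have e2 := a23.1
      have e3 := a34.1
      have e4 := a41.1
      change v₁.1 ≠ v₂.1 at e1
      change v₂.1 ≠ v₃.1 at e2
      change v₃.1 ≠ v₄.1 at e3
      change v₄.1 ≠ v₁.1 at e4
      revert e1 e2 e3 e4 ht
      generalize v₁.1 = i
      generalize v₂.1 = j
      generalize v₃.1 = k
      generalize v₄.1 = l
      revert i j k l
      decide
    exact core hG v₂ v₃ v₄ v₁ h24 (Ne.symm h13) a23 a34 a41 a12 ht'

end Pool.Agent.Helper67.FLC4
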