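import Pool.Agent.Helper95.FL.StmtsG

set_option autoImplicit false

/-!
# XT-3 (statement `StL3`, from `StT`)
-/

namespace Pool.Agent.Helper67.FL

open Pool.Agent.Helper95.FL Pool.Agent.Helper95.FL.FD

private lemma row_zero {K : Type} [Field K] {m : ℕ} (F : FD K m) {t : Fin 3} {g : F.Ch}
    {C : Mat3 K} (h : InH F t g C) (ε : Fin 3 → Bool) (i : Fin 3) : mat g ε t i = 0 := by
  rw [h.2.1 ε]
  by_cases h2 : ε t = true
  · rw [if_pos h2, tm_apply, (h.1 i).2, map_zero]
  · rw [if_neg h2, (h.1 i).2]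

private lemma row_mul {K : Type} [Field K] {m : ℕ} (F : FD K m) {t : Fin 3} {g k : F.Ch}
    {C : Mat3 K} (h : InH F t g C) (ε : Fin 3 → Bool) (i : Fin 3) :
    mat (g * k) ε t i = mat k ε t i := by
  rw [mat_mul, Matrix.add_apply, Matrix.add_apply, row_zero F h ε i, zero_add]
  have h0 : (mat g ε * F.A ε * mat k ε) t i = 0 := by
    rw [Matrix.mul_assoc, Matrix.mul_apply]
    exact Finset.sum_eq_zero fun r _ => by rw [row_zero F h ε r, zero_mul]
  rw [h0, add_zero]

theorem stL3 (hT : StT) : StL3 := by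
  intro K _ m F a b l hab hal hbl x hx y hy hxy
  obtain ⟨C, hC⟩ := hx
  obtain ⟨D, hD⟩ := hy
  obtain ⟨B, hB⟩ := hxy
  have e1 : ∀ (ε : Fin 3 → Bool) (i : Fin 3),
      (if ε a then F.tm B else B) b i = (if ε l then F.tm D else D) b i := by
    intro ε i
    rw [← hB.2.1 ε, ← hD.2.1 ε]
    exact row_mul F hC ε i
  have hba : D b a = 0 := by
    have h := e1 z0 a
    simp only [z0] at h
    have h' : B b a = D b a := by simpa using h
    rw [← h']
    exact (hB.1 b).1
  have hbb : F.τ (D b b) = D b b := by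
    have h := e1 z0 b
    simp only [z0] at h
    have h' : B b b = D b b := by simpa using h
    have h2 := e1 (fun i => decide (i = l)) b
    simp only [decide_eq_true_eq] at h2
    rw [if_neg hal, if_pos trivial, tm_apply, h'] at h2
    exact h2.symm
  exact hT K m F l a b (Ne.symm hal) (Ne.symm hbl) hab y D hD hba (Or.inr hbb)

end Pool.Agent.Helper67.FL
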